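import Mathlib

set_option autoImplicit false

namespace Pool.Agent.Results.MP_32b555_nt.Unique

structure IsQuasiPos (μ : Set ℕ+ → ℝ) : Prop where
  univ : μ Set.univ = 1
  subadd : ∀ X Y, μ (X ∪ Y) ≤ μ X + μ Y
  affine : ∀ (X : Set ℕ+) (h k : ℕ+), μ ((fun x => k * x + h) '' X) = 1 / ((k : ℕ) : ℝ) * μ X
  le_one : ∀ X, μ X ≤ 1

structure IsQuasiNat (ν : Set ℕ → ℝ) : Prop where
  univ : ν Set.univ = 1
  subadd : ∀ X Y, ν (X ∪ Y) ≤ ν X + ν Y
  affine : ∀ (X : Set ℕ) (h k : ℕ), 0 < h → 0 < k →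
    ν ((fun x => k * x + h) '' X) = 1 / (k : ℝ) * ν X
  le_one : ∀ X, ν X ≤ 1

theorem result (μ : Set ℕ+ → ℝ) (hμ : IsQuasiPos μ) :
    ∃! ν : Set ℕ → ℝ, IsQuasiNat ν ∧ ∀ X : Set ℕ+, ν ((fun x : ℕ+ => (x : ℕ)) '' X) = μ X := by
  have tr : ∀ (X : Set ℕ+) (h : ℕ+), μ ((fun x => x + h) '' X) = μ X := fun X h => by
    simpa using hμ.affine X h 1
  refine ⟨fun X => μ (Nat.succPNat '' X), ⟨⟨?_, fun X Y => ?_, fun X h k hh hk => ?_,
    fun X => hμ.le_one _⟩, fun X => ?_⟩, fun ν hν => funext fun X => ?_⟩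
  · rw [Set.image_univ, Function.Surjective.range_eq fun x => ⟨x.natPred, x.succPNat_natPred⟩,
      hμ.univ]
  · rw [Set.image_union]
    exact hμ.subadd _ _
  · have e := hμ.affine (Nat.succPNat '' X) h.succPNat ⟨k, hk⟩
    rw [PNat.mk_coe] at e
    rw [← e, ← tr _ ⟨k, hk⟩, Set.image_image, Set.image_image, Set.image_image]
    congr 2
    funext x
    apply PNat.eq
    simp only [PNat.add_coe, PNat.mul_coe, PNat.mk_coe, Nat.succPNat_coe, Nat.succ_eq_add_one]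
    ring
  · rw [← tr X 1]
    simp only [Set.image_image]
    congr 2
  · have e := hν.1.affine X 1 1 one_pos one_pos
    rw [← hν.2, Set.image_image]
    simp only [Nat.succPNat_coe, Nat.succ_eq_add_one]
    simpa using e.symm

end Pool.Agent.Results.MP_32b555_nt.Unique
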